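import Pool.Agent.PFD.StmtsD6b

/-!
# Squad PFD, block D6, row ORB (helper47): the `W`-set of a `V × V`-set
-/

open scoped BigOperators

noncomputable section

namespace Pool.Agent.PFD.D6.H47

open Pool.Agent.PFC

section

variable {V E Ω : Type} [CommGroup V] [Group E] (φ : E →* MulAut V) [MulAction (V × V) Ω]

/-- the twisted diagonal -/
def th (e : E) : V →* V × V := (φ e).toMonoidHom.prod (MonoidHom.id V)

theorem th_apply (e : E) (v : V) : th φ e v = (φ e v, v) := rfl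

/-- the representative of the orbit -/
def rep (ω : Ω) : Ω :=
  Quotient.out (Quotient.mk (MulAction.orbitRel (V × V) Ω) ω)

theorem rep_smul (g : V × V) (ω : Ω) : rep (V := V) (g • ω) = rep (V := V) ω := by
  unfold rep
  have h : Quotient.mk (MulAction.orbitRel (V × V) Ω) (g • ω) =
      Quotient.mk (MulAction.orbitRel (V × V) Ω) ω := by
    refine Quotient.sound ?_
    show (MulAction.orbitRel (V × V) Ω).r (g • ω) ω
    exact MulAction.orbitRel_apply.2 (MulAction.mem_orbit ω g)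
  rw [h]

theorem rep_spec (ω : Ω) : ∃ g : V × V, g • rep (V := V) ω = ω := by
  have h : (MulAction.orbitRel (V × V) Ω).r ω (rep (V := V) ω) := by
    have h1 := Quotient.mk_out (s := MulAction.orbitRel (V × V) Ω) ω
    exact (MulAction.orbitRel (V × V) Ω).symm h1
  exact MulAction.orbitRel_apply.1 h

theorem rep_rep (ω : Ω) : rep (V := V) (rep (V := V) ω) = rep (V := V) ω := by
  obtain ⟨g, hg⟩ := rep_spec (V := V) ω
  conv_rhs => rw [← hg]
  rw [rep_smul]

variable (W : Subgroup V)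
  (H : ∀ ω : Ω, ∃ (e : E) (R : Subgroup V), R ≤ W ∧
    MulAction.stabilizer (V × V) ω = tw (φ e).toMonoidHom R)

/-- the element of `E` of a point -/
def e0 (ω : Ω) : E := Classical.choose (H ω)

/-- the element of `E` of the orbit -/
def eo (ω : Ω) : E := e0 φ W H (rep (V := V) ω)

theorem eo_smul (g : V × V) (ω : Ω) : eo φ W H (g • ω) = eo φ W H ω := by
  unfold eo
  rw [rep_smul]

theorem eo_spec (ω : Ω) : ∃ R : Subgroup V, R ≤ W ∧
    MulAction.stabilizer (V × V) (rep (V := V) ω) = tw (φ (eo φ W H ω)).toMonoidHom R :=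
  Classical.choose_spec (H (rep (V := V) ω))

/-- the `W`-set -/
def Om : Type := {ω : Ω // ∃ w : V, w ∈ W ∧ ω = th φ (eo φ W H ω) w • rep (V := V) ω}

/-- the action of `W` -/
@[reducible] def act : MulAction W (Om φ W H) where
  smul w p := ⟨th φ (eo φ W H p.1) (w : V) • p.1, by
    obtain ⟨w', hw', h⟩ := p.2
    refine ⟨(w : V) * w', W.mul_mem w.2 hw', ?_⟩
    rw [eo_smul, rep_smul, map_mul, mul_smul, ← h]⟩
  one_smul p := by
    apply Subtype.ext
    show th φ (eo φ W H p.1) ((1 : W) : V) • p.1 = p.1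
    rw [OneMemClass.coe_one, map_one, one_smul]
  mul_smul w w' p := by
    apply Subtype.ext
    show th φ (eo φ W H p.1) ((w * w' : W) : V) • p.1 =
      th φ (eo φ W H (th φ (eo φ W H p.1) (w' : V) • p.1)) (w : V) •
        (th φ (eo φ W H p.1) (w' : V) • p.1)
    rw [eo_smul, Subgroup.coe_mul, map_mul, mul_smul]

/-- the bijection -/
def bij (T : Finset V) (x : Om φ W H × {t // t ∈ T} × V) : Ω :=
  ((φ (eo φ W H x.1.1) (x.2.1 : V), x.2.2) : V × V) • x.1.1

theorem bij_inj (T : Finset V) (hT : IsTv W ⊤ T) : Function.Injective (bij φ W H T) := by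
  rintro ⟨⟨p, hp⟩, ⟨t, ht⟩, v⟩ ⟨⟨p1, hp1⟩, ⟨t1, ht1⟩, v1⟩ h
  have h' : ((φ (eo φ W H p) t, v) : V × V) • p = ((φ (eo φ W H p1) t1, v1) : V × V) • p1 := h
  have he : eo φ W H p = eo φ W H p1 := by
    rw [← eo_smul φ W H (φ (eo φ W H p) t, v) p, h', eo_smul]
  have hr : rep (V := V) p = rep (V := V) p1 := by
    rw [← rep_smul (φ (eo φ W H p) t, v) p, h', rep_smul]
  obtain ⟨w, hw, hpw⟩ := hp
  obtain ⟨w1, hw1, hpw1⟩ := hp1
  obtain ⟨R, hR, hst⟩ := eo_spec φ W H p1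
  have hmem : ((φ (eo φ W H p1) (t1 * w1), v1 * w1) : V × V)⁻¹ *
      (φ (eo φ W H p1) (t * w), v * w) ∈ MulAction.stabilizer (V × V) (rep (V := V) p1) := by
    rw [MulAction.mem_stabilizer_iff, mul_smul, inv_smul_eq_iff]
    have e1 : ((φ (eo φ W H p1) (t * w), v * w) : V × V) =
        (φ (eo φ W H p1) t, v) * th φ (eo φ W H p1) w := by
      rw [th_apply, Prod.mk_mul_mk, map_mul]
    have e2 : ((φ (eo φ W H p1) (t1 * w1), v1 * w1) : V × V) =
        (φ (eo φ W H p1) t1, v1) * th φ (eo φ W H p1) w1 := by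
      rw [th_apply, Prod.mk_mul_mk, map_mul]
    rw [e1, e2, mul_smul, mul_smul, ← hpw1]
    have e3 : th φ (eo φ W H p1) w • rep (V := V) p1 = p := by
      rw [← he, ← hr]
      exact hpw.symm
    rw [e3, ← he, h', he]
  rw [hst] at hmem
  obtain ⟨r, hrR, hrr⟩ := Subgroup.mem_map.1 hmem
  have c1 : φ (eo φ W H p1) r = (φ (eo φ W H p1) (t1 * w1))⁻¹ * φ (eo φ W H p1) (t * w) :=
    congrArg Prod.fst hrr
  have c2 : r = (v1 * w1)⁻¹ * (v * w) := congrArg Prod.snd hrr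
  rw [← map_inv, ← map_mul] at c1
  have c3 : r = (t1 * w1)⁻¹ * (t * w) := (φ (eo φ W H p1)).injective c1
  have hrW : r ∈ W := hR hrR
  have c4 : t1⁻¹ * t = r * w1 * w⁻¹ := by
    rw [c3]
    simp only [mul_inv_rev]
    rw [mul_comm w1⁻¹ t1⁻¹]
    calc t1⁻¹ * t = t1⁻¹ * t * (w1⁻¹ * w1) * (w * w⁻¹) := by
          rw [inv_mul_cancel, mul_inv_cancel, mul_one, mul_one]
      _ = t1⁻¹ * w1⁻¹ * (t * w) * w1 * w⁻¹ := by
          simp only [mul_comm, mul_left_comm, mul_assoc]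
  have c5 : t1⁻¹ * t ∈ W := by
    rw [c4]
    exact W.mul_mem (W.mul_mem hrW hw1) (W.inv_mem hw)
  have htt : t = t1 := by
    obtain ⟨s, -, hs⟩ := hT.2 t (Subgroup.mem_top t)
    rw [hs t ⟨ht, by rw [inv_mul_cancel]; exact W.one_mem⟩, hs t1 ⟨ht1, c5⟩]
  subst htt
  have c6 : v1⁻¹ * v = 1 := by
    have c7 : (v1 * w1)⁻¹ * (v * w) = (t * w1)⁻¹ * (t * w) := by rw [← c2, ← c3]
    have c8 : (t * w1)⁻¹ * (t * w) = w1⁻¹ * w := by
      rw [mul_inv_rev, mul_assoc, inv_mul_cancel_left]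
    have c9 : (v1 * w1)⁻¹ * (v * w) = (v1⁻¹ * v) * (w1⁻¹ * w) := by
      rw [mul_inv, mul_mul_mul_comm]
    rw [c8, c9] at c7
    exact mul_eq_right.1 c7
  have hvv : v = v1 := by
    rw [inv_mul_eq_one] at c6
    exact c6.symm
  subst hvv
  rw [he] at h'
  have hpp : p = p1 := MulAction.injective _ h'
  subst hpp
  rfl

theorem bij_sur (T : Finset V) (hT : IsTv W ⊤ T) : Function.Surjective (bij φ W H T) := by
  intro ω
  obtain ⟨⟨a, b⟩, hg⟩ := rep_spec (V := V) ω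
  obtain ⟨t, ⟨ht, htW⟩, -⟩ := hT.2 ((φ (eo φ W H ω)).symm a) (Subgroup.mem_top _)
  set w := t⁻¹ * (φ (eo φ W H ω)).symm a with hw
  have hee : eo φ W H (th φ (eo φ W H ω) w • rep (V := V) ω) = eo φ W H ω := by
    rw [eo_smul]
    unfold eo
    rw [rep_rep]
  have hrr : rep (V := V) (th φ (eo φ W H ω) w • rep (V := V) ω) = rep (V := V) ω := by
    rw [rep_smul, rep_rep]
  refine ⟨⟨⟨th φ (eo φ W H ω) w • rep (V := V) ω, w, htW, by rw [hee, hrr]⟩, ⟨t, ht⟩,
    b * w⁻¹⟩, ?_⟩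
  show ((φ (eo φ W H (th φ (eo φ W H ω) w • rep (V := V) ω)) t, b * w⁻¹) : V × V) •
    (th φ (eo φ W H ω) w • rep (V := V) ω) = ω
  rw [hee, ← mul_smul, th_apply, Prod.mk_mul_mk, ← map_mul, inv_mul_cancel_right]
  have h1 : t * w = (φ (eo φ W H ω)).symm a := by
    rw [hw, mul_inv_cancel_left]
  rw [h1, MulEquiv.apply_symm_apply]
  exact hg

end

theorem orb : OrbStmt := by
  classical
  intro V E Ω _ _ _ φ W _ _ H
  letI := act φ W H
  haveI : Finite (Om φ W H) := by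
    unfold Om
    infer_instance
  refine ⟨Om φ W H, Fintype.ofFinite _, act φ W H, fun p => p.1, fun p => eo φ W H p.1,
    fun w p => ?_, fun w p => rfl, fun T hT M _ f => ?_⟩
  · exact eo_smul φ W H _ _
  · letI : Fintype (Om φ W H) := Fintype.ofFinite _
    have h1 := (show Function.Bijective (bij φ W H T) from
      ⟨bij_inj φ W H T hT, bij_sur φ W H T hT⟩).sum_comp f
    rw [← h1, Fintype.sum_prod_type]
    refine Finset.sum_congr rfl fun p _ => ?_
    rw [Fintype.sum_prod_type, ← Finset.sum_coe_sort T]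
    rfl

end Pool.Agent.PFD.D6.H47
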