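import Pool.Agent.PFD.StmtsD6b

/-!
# Squad PFD, block D6, row HTW (helper47): the `W`-relative form of the complement
-/

open scoped BigOperators

noncomputable section

namespace Pool.Agent.PFD.D6.H47

open Pool.Agent.PFC

theorem htw : HtwStmt := by
  classical
  intro hORB F V E A Ω _ _ _ _ _ _ _ _ _ _ φ W α n n' c q b d hU hE hql hqr hF
  obtain ⟨Om, iOm, aOm, i, ee, hee, hi, hsum⟩ := hORB V E Ω φ W hF.st
  -- basic identities
  have hbi : ∀ (w : V × V) (x : A), bi F α w x = α w.1 * (x * α w.2⁻¹) := fun w x => rfl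
  have hn'α : ∀ e u, n' e * α (φ e u) = α u * n' e := by
    intro e u
    calc n' e * α (φ e u) = n' e * α (φ e u) * (n e * n' e) := by rw [hU.ri, mul_one]
      _ = n' e * (α (φ e u) * n e) * n' e := by simp only [mul_assoc]
      _ = n' e * (n e * α u) * n' e := by rw [hU.tw]
      _ = (n' e * n e) * α u * n' e := by simp only [mul_assoc]
      _ = α u * n' e := by rw [hU.li, one_mul]
  have hαn : ∀ e u, n e * (α u * n' e) = α (φ e u) := by
    intro e u
    rw [← mul_assoc, hU.tw, mul_assoc, hU.ri, mul_one]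
  have hc0 : ∀ e f, c e f ≠ 0 := by
    intro e f h0
    have h1 := hU.mul e f
    rw [h0, zero_smul] at h1
    have h2 : n' f * (n' e * (n e * n f)) = 1 := by
      rw [← mul_assoc (n' e), hU.li, one_mul, hU.li]
    rw [h1, mul_zero, mul_zero] at h2
    exact zero_ne_one h2
  have hn'n' : ∀ e f, n' f * n' e = (c e f)⁻¹ • n' (e * f) := by
    intro e f
    have h1 : n' f * n' e * (n e * n f) = 1 := by
      rw [mul_assoc, ← mul_assoc (n' e), hU.li, one_mul, hU.li]
    rw [hU.mul, mul_smul_comm] at h1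
    calc n' f * n' e = n' f * n' e * (n (e * f) * n' (e * f)) := by rw [hU.ri, mul_one]
      _ = (n' f * n' e * n (e * f)) * n' (e * f) := by simp only [mul_assoc]
      _ = ((c e f)⁻¹ • (c e f • (n' f * n' e * n (e * f)))) * n' (e * f) := by
          rw [smul_smul, inv_mul_cancel₀ (hc0 e f), one_smul]
      _ = (c e f)⁻¹ • n' (e * f) := by rw [h1, smul_mul_assoc, one_mul]
  set k : F := (Nat.card E : F) with hk
  let m : Om → A := fun p => n' (ee p) * b (i p)
  let τ : Om → (A →ₗ[F] F) := fun p =>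
    (k⁻¹ * k⁻¹) • (d (i p)).comp (LinearMap.mulLeft F (n (ee p)))
  have hτ : ∀ p x, τ p x = (k⁻¹ * k⁻¹) * d (i p) (n (ee p) * x) := fun p x => rfl
  have hd : ∀ (w : V × V) (ω : Ω) (y : A), d (w • ω) y = d ω (α w.1⁻¹ * (y * α w.2)) := by
    intro w ω y
    rw [← hF.ed w ω (α w.1⁻¹ * (y * α w.2)), hbi]
    congr 1
    have h1 : α w.1 * α w.1⁻¹ = 1 := by rw [← map_mul, mul_inv_cancel, map_one]
    have h2 : α w.2 * α w.2⁻¹ = 1 := by rw [← map_mul, mul_inv_cancel, map_one]
    calc y = (α w.1 * α w.1⁻¹) * y * (α w.2 * α w.2⁻¹) := by rw [h1, h2, one_mul, mul_one]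
      _ = α w.1 * (α w.1⁻¹ * (y * α w.2) * α w.2⁻¹) := by simp only [mul_assoc]
  refine ⟨Om, iOm, aOm, m, τ, ?_, ?_, ?_⟩
  · intro w p
    show n' (ee (w • p)) * b (i (w • p)) = α w * (n' (ee p) * b (i p)) * α (w : V)⁻¹
    rw [hee, hi, hF.eb, hbi]
    show n' (ee p) * (α (φ (ee p) (w : V)) * (b (i p) * α (w : V)⁻¹)) = _
    rw [← mul_assoc, hn'α]
    simp only [mul_assoc]
  · intro w p a
    rw [hτ, hτ, hee, hi, hd]
    show (k⁻¹ * k⁻¹) * d (i p) (α (φ (ee p) (w : V))⁻¹ *
      (n (ee p) * (α w * a * α (w : V)⁻¹) * α (w : V))) = _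
    congr 2
    have h2 : α (w : V)⁻¹ * α (w : V) = 1 := by rw [← map_mul, inv_mul_cancel, map_one]
    have h3 : α (φ (ee p) (w : V))⁻¹ * α (φ (ee p) (w : V)) = 1 := by
      rw [← map_mul, inv_mul_cancel, map_one]
    calc α (φ (ee p) (w : V))⁻¹ * (n (ee p) * (α w * a * α (w : V)⁻¹) * α (w : V))
        = α (φ (ee p) (w : V))⁻¹ * (n (ee p) * α w) * a * (α (w : V)⁻¹ * α (w : V)) := by
          simp only [mul_assoc]
      _ = α (φ (ee p) (w : V))⁻¹ * (α (φ (ee p) (w : V)) * n (ee p)) * a := by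
          rw [h2, mul_one, hU.tw]
      _ = (α (φ (ee p) (w : V))⁻¹ * α (φ (ee p) (w : V))) * (n (ee p) * a) := by
          simp only [mul_assoc]
      _ = n (ee p) * a := by rw [h3, one_mul]
  · intro T hT a
    -- the formula for q
    have hq : ∀ y, (k⁻¹ * k⁻¹) • q y = ∑ p : Om, ∑ t ∈ T, ∑ v : V,
        τ p (α t⁻¹ * (n' (ee p) * (y * α v))) •
          (n (ee p) * (α t * (m p * α v⁻¹))) := by
      intro y
      rw [← hF.sum y, hsum T hT A (fun ω => d ω y • b ω), Finset.smul_sum]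
      refine Finset.sum_congr rfl fun p _ => ?_
      rw [Finset.smul_sum]
      refine Finset.sum_congr rfl fun t _ => ?_
      rw [Finset.smul_sum]
      refine Finset.sum_congr rfl fun v _ => ?_
      rw [hF.eb, hbi, hd, smul_smul, hτ]
      have e1 : α (φ (ee p) t)⁻¹ * (y * α v) =
          n (ee p) * (α t⁻¹ * (n' (ee p) * (y * α v))) := by
        rw [← map_inv, ← hαn]
        simp only [mul_assoc]
      have e2 : α (φ (ee p) t) * (b (i p) * α v⁻¹) = n (ee p) * (α t * (m p * α v⁻¹)) := by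
        show _ = n (ee p) * (α t * (n' (ee p) * b (i p) * α v⁻¹))
        rw [← hαn]
        simp only [mul_assoc]
      show ((k⁻¹ * k⁻¹) * d (i p) (α (φ (ee p) t)⁻¹ * (y * α v))) •
        (α (φ (ee p) t) * (b (i p) * α v⁻¹)) = _
      rw [e1, e2]
    have hqa : ∀ f g, n f * q (n' f * a * n g) * n' g = q a := by
      intro f g
      rw [← hql, ← mul_assoc, ← mul_assoc, hU.ri, one_mul, hqr, mul_assoc, hU.ri, mul_one]
    have hG : ∀ f g, (k⁻¹ * k⁻¹) • q a = ∑ p : Om, ∑ t ∈ T, ∑ v : V,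
        τ p (α t⁻¹ * n' (f * ee p) * a * (n g * α v)) •
          (n (f * ee p) * α t * m p * (α v⁻¹ * n' g)) := by
      intro f g
      have h1 : (k⁻¹ * k⁻¹) • q a = n f * ((k⁻¹ * k⁻¹) • q (n' f * a * n g)) * n' g := by
        rw [mul_smul_comm, smul_mul_assoc, hqa]
      rw [h1, hq, Finset.mul_sum, Finset.sum_mul]
      refine Finset.sum_congr rfl fun p _ => ?_
      rw [Finset.mul_sum, Finset.sum_mul]
      refine Finset.sum_congr rfl fun t _ => ?_
      rw [Finset.mul_sum, Finset.sum_mul]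
      refine Finset.sum_congr rfl fun v _ => ?_
      have e1 : α t⁻¹ * (n' (ee p) * (n' f * a * n g * α v)) =
          (c f (ee p))⁻¹ • (α t⁻¹ * n' (f * ee p) * a * (n g * α v)) := by
        calc α t⁻¹ * (n' (ee p) * (n' f * a * n g * α v))
            = α t⁻¹ * (n' (ee p) * n' f) * a * (n g * α v) := by simp only [mul_assoc]
          _ = _ := by
            rw [hn'n', mul_smul_comm, smul_mul_assoc, smul_mul_assoc]
      have e2 : n f * (n (ee p) * (α t * (m p * α v⁻¹))) * n' g =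
          c f (ee p) • (n (f * ee p) * α t * m p * (α v⁻¹ * n' g)) := by
        calc n f * (n (ee p) * (α t * (m p * α v⁻¹))) * n' g
            = (n f * n (ee p)) * α t * m p * (α v⁻¹ * n' g) := by simp only [mul_assoc]
          _ = _ := by
            rw [hU.mul, smul_mul_assoc, smul_mul_assoc, smul_mul_assoc]
      rw [mul_smul_comm, smul_mul_assoc, e1, e2, map_smul, smul_smul, smul_eq_mul,
        mul_comm (c f (ee p))⁻¹, mul_assoc, inv_mul_cancel₀ (hc0 f (ee p)), mul_one]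
    -- reorder the sums
    have hre : ∑ h : E, ∑ t ∈ T, ∑ g : E, ∑ v : V, ∑ p : Om,
        τ p (α t⁻¹ * n' h * a * (n g * α v)) • (n h * α t * m p * (α v⁻¹ * n' g)) =
        ∑ g : E, ∑ f : E, ∑ p : Om, ∑ t ∈ T, ∑ v : V,
          τ p (α t⁻¹ * n' (f * ee p) * a * (n g * α v)) •
            (n (f * ee p) * α t * m p * (α v⁻¹ * n' g)) := by
      have s1 : ∀ (G : E → V → E → V → Om → A),
          ∑ h : E, ∑ t ∈ T, ∑ g : E, ∑ v : V, ∑ p : Om, G h t g v p =
          ∑ g : E, ∑ f : E, ∑ p : Om, ∑ t ∈ T, ∑ v : V, G (f * ee p) t g v p := by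
        intro G
        calc ∑ h : E, ∑ t ∈ T, ∑ g : E, ∑ v : V, ∑ p : Om, G h t g v p
            = ∑ h : E, ∑ g : E, ∑ t ∈ T, ∑ v : V, ∑ p : Om, G h t g v p :=
              Finset.sum_congr rfl fun h _ => Finset.sum_comm
          _ = ∑ g : E, ∑ h : E, ∑ t ∈ T, ∑ v : V, ∑ p : Om, G h t g v p := Finset.sum_comm
          _ = ∑ g : E, ∑ h : E, ∑ p : Om, ∑ t ∈ T, ∑ v : V, G h t g v p := by
              refine Finset.sum_congr rfl fun g _ => Finset.sum_congr rfl fun h _ => ?_
              calc ∑ t ∈ T, ∑ v : V, ∑ p : Om, G h t g v p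
                  = ∑ t ∈ T, ∑ p : Om, ∑ v : V, G h t g v p :=
                    Finset.sum_congr rfl fun t _ => Finset.sum_comm
                _ = ∑ p : Om, ∑ t ∈ T, ∑ v : V, G h t g v p := Finset.sum_comm
          _ = ∑ g : E, ∑ p : Om, ∑ h : E, ∑ t ∈ T, ∑ v : V, G h t g v p :=
              Finset.sum_congr rfl fun g _ => Finset.sum_comm
          _ = ∑ g : E, ∑ p : Om, ∑ f : E, ∑ t ∈ T, ∑ v : V, G (f * ee p) t g v p := by
              refine Finset.sum_congr rfl fun g _ => Finset.sum_congr rfl fun p _ => ?_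
              exact (Equiv.sum_comp (Equiv.mulRight (ee p))
                (fun h => ∑ t ∈ T, ∑ v : V, G h t g v p)).symm
          _ = ∑ g : E, ∑ f : E, ∑ p : Om, ∑ t ∈ T, ∑ v : V, G (f * ee p) t g v p :=
              Finset.sum_congr rfl fun g _ => Finset.sum_comm
      exact s1 (fun h t g v p =>
        τ p (α t⁻¹ * n' h * a * (n g * α v)) • (n h * α t * m p * (α v⁻¹ * n' g)))
    rw [hre]
    have hfin : ∑ g : E, ∑ f : E, (k⁻¹ * k⁻¹) • q a = q a := by
      rw [Finset.sum_const, Finset.sum_const, Finset.card_univ, smul_smul,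
        ← Nat.cast_smul_eq_nsmul F, smul_smul, ← Nat.card_eq_fintype_card]
      push_cast
      rw [← hk]
      have : k * k * (k⁻¹ * k⁻¹) = 1 := by field_simp
      rw [this, one_smul]
    calc _ = ∑ g : E, ∑ f : E, (k⁻¹ * k⁻¹) • q a := by
          refine Finset.sum_congr rfl fun g _ => Finset.sum_congr rfl fun f _ => ?_
          rw [hG f g]
      _ = q a := hfin

end Pool.Agent.PFD.D6.H47
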